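import Pool.Agent.Helper362.IdealJ
set_option autoImplicit false

namespace Pool.Agent.Results.MP_ffba67_an.MaximalIdealWithoutLRP

open Pool.Agent.Helper362.Ideals

/-- For real and for complex scalars there is a maximal Banach ideal which does not satisfy its
principle of local reflexivity. -/
theorem result (𝕜 : Type) [RCLike 𝕜] : ∃ I : BanachIdeal.{0} 𝕜,
    I.nrm (ContinuousLinearMap.id 𝕜 𝕜) = 1 ∧ IsMaximal I.toIdealData ∧ ¬ LRP I.toIdealData :=
  exists_maximal_not_LRP 𝕜

end Pool.Agent.Results.MP_ffba67_an.MaximalIdealWithoutLRP
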